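import Pool.Agent.Helper35.PI.St1

/-!
Module LL3 of project PI (MP_b2fa09_gt).
-/

set_option autoImplicit false

namespace Helper8.PI

open Helper35.PI
open scoped BigOperators

private lemma LL3_fq_nonneg {n : ℕ} (X : Matrix (Fin n) (Fin n) ℝ) : 0 ≤ fq X :=
  Finset.sum_nonneg fun _ _ => Finset.sum_nonneg fun _ _ => sq_nonneg _

private lemma LL3_fq_zero {n : ℕ} : fq (0 : Matrix (Fin n) (Fin n) ℝ) = 0 := by
  simp [fq]

private lemma LL3_cmq_zero {n : ℕ} (X : Matrix (Fin n) (Fin n) ℝ) : cmq X 0 = 0 := by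
  simp [cmq]

private lemma LL3_cmq_self {n : ℕ} (X : Matrix (Fin n) (Fin n) ℝ) : cmq X X = 0 := by
  simp [cmq]

private lemma LL3_one (h2 : StLL2) {n p : ℕ} (C : Fin p → Matrix (Fin n) (Fin n) ℝ)
    (hs : ∀ b, (C b).IsSymm) (ho : ∀ a b, a ≠ b → ipm (C a) (C b) = 0) (a : Fin p) (μ : ℝ) (hμ : 0 ≤ μ)
    (hb : ∀ b, b ≠ a → fq (C b) ≤ μ) :
    ∑ b, cmq (C a) (C b) ≤ fq (C a) * ((∑ b, fq (C b) - fq (C a)) + μ) := by
  let D : Fin p → Matrix (Fin n) (Fin n) ℝ := fun b => if b = a then 0 else C b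
  have hDs : ∀ b, (D b).IsSymm := by
    intro b
    by_cases h : b = a
    · simp only [D, if_pos h]; exact Matrix.isSymm_zero
    · simp only [D, if_neg h]; exact hs b
  have hDo : ∀ b c, b ≠ c → ipm (D b) (D c) = 0 := by
    intro b c hbc
    by_cases h : b = a
    · simp [D, if_pos h, ipm]
    · by_cases h' : c = a
      · simp [D, if_pos h', ipm]
      · simp only [D, if_neg h, if_neg h']; exact ho b c hbc
  have hDb : ∀ b, fq (D b) ≤ μ := by
    intro b
    by_cases h : b = a
    · simp only [D, if_pos h]; rw [LL3_fq_zero]; exact hμ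
    · simp only [D, if_neg h]; exact hb b h
  have h := h2 n p (C a) (hs a) D hDs hDo μ hμ hDb
  have e1 : ∑ b, cmq (C a) (D b) = ∑ b, cmq (C a) (C b) := by
    refine Finset.sum_congr rfl fun b _ => ?_
    by_cases h : b = a
    · simp only [D, if_pos h]
      rw [LL3_cmq_zero, h, LL3_cmq_self]
    · simp only [D, if_neg h]
  have e2 : ∑ b, fq (D b) = ∑ b, fq (C b) - fq (C a) := by
    have hh : ∀ b, fq (D b) = fq (C b) - (if b = a then fq (C a) else 0) := by
      intro b
      by_cases h : b = a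
      · simp only [D, if_pos h]
        rw [LL3_fq_zero, h]; ring
      · simp only [D, if_neg h]; ring
    rw [Finset.sum_congr rfl fun b _ => hh b, Finset.sum_sub_distrib, Finset.sum_ite_eq' Finset.univ a]
    simp
  rw [e1, e2] at h
  exact h

theorem hLL3 (h2 : StLL2) : StLL3 := by
  intro n p C hs ho
  rcases Nat.eq_zero_or_pos p with hp | hp
  · subst hp
    simp
  have : Nonempty (Fin p) := ⟨⟨0, hp⟩⟩
  obtain ⟨a0, ha0⟩ := Finite.exists_max (fun a => fq (C a))
  set S : ℝ := ∑ a, fq (C a) with hS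
  set T : ℝ := fq (C a0) with hT
  have hle : ∀ a, a ≠ a0 → fq (C a) ≤ S - T := by
    intro a ha
    have h1 : ∑ b ∈ ({a, a0} : Finset (Fin p)), fq (C b) ≤ S :=
      Finset.sum_le_univ_sum_of_nonneg fun b => LL3_fq_nonneg _
    rw [Finset.sum_pair ha] at h1
    linarith
  have hTS : T ≤ S := Finset.single_le_sum (fun b _ => LL3_fq_nonneg (C b)) (Finset.mem_univ a0)
  have hT0 : 0 ≤ T := LL3_fq_nonneg _
  have hrow : ∀ a, ∑ b, cmq (C a) (C b) ≤ fq (C a) * ((S - fq (C a)) + (if a = a0 then S - T else T)) := by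
    intro a
    by_cases h : a = a0
    · rw [if_pos h]
      refine LL3_one h2 C hs ho a (S - T) (by linarith) ?_
      intro b hb
      exact hle b (by rwa [← h])
    · rw [if_neg h]
      exact LL3_one h2 C hs ho a T hT0 fun b _ => ha0 b
  have hsum := Finset.sum_le_sum fun a (_ : a ∈ Finset.univ) => hrow a
  have e : ∑ a, fq (C a) * ((S - fq (C a)) + (if a = a0 then S - T else T)) =
      S * S - ∑ a, fq (C a) ^ 2 + 2 * T * (S - T) := by
    have hh : ∀ a, fq (C a) * ((S - fq (C a)) + (if a = a0 then S - T else T)) =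
        fq (C a) * S - fq (C a) ^ 2 + fq (C a) * T + (if a = a0 then T * (S - 2 * T) else 0) := by
      intro a
      by_cases h : a = a0
      · rw [if_pos h, if_pos h, h]; ring
      · rw [if_neg h, if_neg h]; ring
    rw [Finset.sum_congr rfl fun a _ => hh a, Finset.sum_add_distrib, Finset.sum_add_distrib,
      Finset.sum_sub_distrib, ← Finset.sum_mul, ← Finset.sum_mul, Finset.sum_ite_eq' Finset.univ a0]
    simp only [Finset.mem_univ, if_true]
    rw [← hS]; ring
  rw [e] at hsum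
  nlinarith [sq_nonneg (S - 2 * T)]

end Helper8.PI
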